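import Mathlib
import Pool.Agent.Helper18.UW.GoalsA

/-! Packet Red of the project UW. -/

set_option autoImplicit false

namespace Pool.Agent.Helper32.UW

open Finset
open Pool.Agent.Lead.Sh
open Pool.Agent.Helper18.UW

lemma rows_sub {m m' : ℕ → ℕ} {s s' : Finset ℕ}
    (h : ∀ k ∈ s, 1 ≤ m k → k ∈ s' ∧ m k ≤ m' k) : rows m s ⊆ rows m' s' := by
  intro r hr
  rw [mem_rows] at hr ⊢
  obtain ⟨h1, h2⟩ := hr
  obtain ⟨h3, h4⟩ := h r.1 h1 (by omega)
  exact ⟨h3, by omega⟩

/-- lowering multiplicities -/
lemma lower (s : Finset ℕ) (M T : ℕ) : ∀ (n : ℕ) (m : ℕ → ℕ), ∑ k ∈ s, m k = n →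
    (∀ k ∈ s, m k ≤ M) → T ≤ ∑ k ∈ s, (m k + 1).choose 2 →
    ∃ m' : ℕ → ℕ, (∀ k, m' k ≤ m k) ∧ T ≤ ∑ k ∈ s, (m' k + 1).choose 2 ∧
      ∑ k ∈ s, (m' k + 1).choose 2 ≤ T + M := by
  intro n
  induction n with
  | zero =>
    intro m hm hM hT
    refine ⟨m, fun _ => le_rfl, hT, ?_⟩
    have h0 : ∀ k ∈ s, m k = 0 := by
      intro k hk
      exact (Finset.sum_eq_zero_iff.1 hm) k hk
    have : ∑ k ∈ s, (m k + 1).choose 2 = 0 := by
      apply Finset.sum_eq_zero
      intro k hk
      rw [h0 k hk]; rfl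
    omega
  | succ n ih =>
    intro m hm hM hT
    by_cases hle : ∑ k ∈ s, (m k + 1).choose 2 ≤ T + M
    · exact ⟨m, fun _ => le_rfl, hT, hle⟩
    push Not at hle
    obtain ⟨k0, hk0, hpos⟩ : ∃ k0 ∈ s, m k0 ≠ 0 := by
      by_contra hcon
      push Not at hcon
      have : ∑ k ∈ s, m k = 0 := Finset.sum_eq_zero hcon
      omega
    set m1 : ℕ → ℕ := Function.update m k0 (m k0 - 1) with hm1
    have e1 : m1 k0 = m k0 - 1 := by simp [hm1]
    have e2 : ∀ k, k ≠ k0 → m1 k = m k := by
      intro k hk; simp [hm1, hk]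
    have hmle : ∀ k, m1 k ≤ m k := by
      intro k
      by_cases hk : k = k0
      · subst hk; omega
      · rw [e2 k hk]
    have hs1 : ∑ k ∈ s, m1 k + 1 = ∑ k ∈ s, m k := by
      rw [← Finset.add_sum_erase s m hk0, ← Finset.add_sum_erase s m1 hk0, e1]
      have : ∑ x ∈ s.erase k0, m1 x = ∑ x ∈ s.erase k0, m x :=
        Finset.sum_congr rfl (fun x hx => e2 x (Finset.ne_of_mem_erase hx))
      rw [this]; omega
    have hch : (m k0 + 1).choose 2 = (m1 k0 + 1).choose 2 + m k0 := by
      rw [e1]
      obtain ⟨j, hj⟩ := Nat.exists_eq_succ_of_ne_zero hpos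
      rw [hj, Nat.succ_eq_add_one, Nat.add_sub_cancel, Nat.choose_succ_succ' (j + 1) 1,
        Nat.choose_one_right]
      ring
    have hs2 : ∑ k ∈ s, (m k + 1).choose 2 = ∑ k ∈ s, (m1 k + 1).choose 2 + m k0 := by
      rw [← Finset.add_sum_erase s (fun k => (m k + 1).choose 2) hk0,
        ← Finset.add_sum_erase s (fun k => (m1 k + 1).choose 2) hk0]
      have : ∑ x ∈ s.erase k0, (m1 x + 1).choose 2 = ∑ x ∈ s.erase k0, (m x + 1).choose 2 :=
        Finset.sum_congr rfl (fun x hx => by rw [e2 x (Finset.ne_of_mem_erase hx)])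
      rw [this, hch]; ring
    have hMk := hM k0 hk0
    obtain ⟨m', h1, h2, h3⟩ := ih m1 (by omega) (fun k hk => (hmle k).trans (hM k hk)) (by omega)
    exact ⟨m', fun k => (h1 k).trans (hmle k), h2, h3⟩

theorem goalRed : GoalRed := by
  intro hC s m d hanti hzero hd
  have hM : ∀ k, m k ≤ m 0 := fun k => hanti (Nat.zero_le k)
  rcases Nat.eq_zero_or_pos (m 0) with h0 | hpos
  · have hall : ∀ k, m k = 0 := fun k => by have := hM k; omega
    left
    constructor
    · have : ∑ k ∈ range s, (m k + 1).choose 2 = 0 := by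
        apply Finset.sum_eq_zero
        intro k _
        rw [hall k]; rfl
      rw [this]; exact Nat.zero_le _
    · refine (ind_empty (triD 0 d)).mono subset_rfl ?_
      intro r hr
      rw [mem_rows] at hr
      have := hall r.1
      omega
  rcases Nat.lt_or_ge (triD 0 d).card (∑ k ∈ range s, (m k + 1).choose 2) with hlt | hle
  · right
    refine ⟨hlt.le, ?_⟩
    rw [card_triD] at hlt
    obtain ⟨m', h1, h2, h3⟩ := lower (range s) (m 0) ((d + 2).choose 2) _ m rfl
      (fun k _ => hM k) hlt.le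
    set A := (range s).filter (fun k => 1 ≤ m' k) with hA
    have hsum : ∑ k ∈ A, (m' k + 1).choose 2 = ∑ k ∈ range s, (m' k + 1).choose 2 := by
      rw [hA, Finset.sum_filter_of_ne]
      intro k _ hk
      by_contra hcon
      apply hk
      have : m' k = 0 := by omega
      rw [this]; rfl
    have key := hC A m' (m 0) d (by
      intro k hk
      rw [hA, mem_filter] at hk
      exact ⟨hk.2, (h1 k).trans (hM k)⟩) hpos hd (by rw [hsum]; exact h2) (by rw [hsum]; exact h3)
    refine key.mono subset_rfl (rows_sub ?_)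
    intro k hk _
    rw [hA, mem_filter] at hk
    exact ⟨hk.1, h1 k⟩
  · left
    refine ⟨hle, ?_⟩
    obtain ⟨f, hf⟩ := Nat.exists_eq_add_of_le hle
    set m' : ℕ → ℕ := fun k => if k < s then m k else 1 with hm'
    set A := (range s).filter (fun k => 1 ≤ m k) ∪ Ico s (s + f) with hA
    have hdj : Disjoint ((range s).filter (fun k => 1 ≤ m k)) (Ico s (s + f)) := by
      rw [disjoint_left]
      intro k hk hk2
      rw [mem_filter, mem_range] at hk
      rw [mem_Ico] at hk2
      omega
    have hsum : ∑ k ∈ A, (m' k + 1).choose 2 = (triD 0 d).card := by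
      rw [hA, sum_union hdj, hf]
      congr 1
      · rw [← Finset.sum_filter_of_ne (p := fun k => 1 ≤ m k)
          (f := fun k => (m k + 1).choose 2) (s := range s)]
        · apply Finset.sum_congr rfl
          intro k hk
          rw [mem_filter, mem_range] at hk
          simp only [hm']
          rw [if_pos hk.1]
        · intro k _ hk
          by_contra hcon
          apply hk
          have : m k = 0 := by omega
          rw [this]; rfl
      · rw [sum_congr rfl (g := fun _ => 1)]
        · rw [sum_const, smul_eq_mul, Nat.card_Ico, Nat.add_sub_cancel_left, mul_one]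
        · intro k hk
          rw [mem_Ico] at hk
          simp only [hm']
          rw [if_neg (by omega)]
          rfl
    have key := hC A m' (m 0) d (by
      intro k hk
      rw [hA, mem_union, mem_filter, mem_range, mem_Ico] at hk
      simp only [hm']
      rcases hk with hk | hk
      · rw [if_pos hk.1]; exact ⟨hk.2, hM k⟩
      · rw [if_neg (by omega)]; exact ⟨le_rfl, hpos⟩) hpos hd
      (by rw [hsum, card_triD]) (by rw [hsum, card_triD]; omega)
    obtain ⟨P, hP⟩ := key
    have hInd : Ind (triD 0 d) (rows m' A) := ⟨P, hP.ind (by rw [card_rows, hsum])⟩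
    refine hInd.mono subset_rfl (rows_sub ?_)
    intro k hk hk1
    rw [mem_range] at hk
    refine ⟨?_, ?_⟩
    · rw [hA, mem_union, mem_filter, mem_range]
      exact Or.inl ⟨hk, hk1⟩
    · simp only [hm']
      rw [if_pos hk]

end Pool.Agent.Helper32.UW
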